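import Pool.Agent.LibHDR57.E

set_option autoImplicit false

namespace Pool.Agent.Results.MP_a56eaa_co.BagStructure

/-- Every finite graph with no `K_{t+1}` minor has a tree decomposition over a finite tree in which every bag
becomes `2 t`-colourable after the removal of at most `t (t - 3)` of its vertices. -/
theorem result :
    ∀ (V : Type) [Fintype V] (G : SimpleGraph V) (t : ℕ),
      (¬ ∃ f : Fin (t + 1) → Set V,
          (∀ i, (G.induce (f i)).Connected) ∧
          (∀ i j, i ≠ j → Disjoint (f i) (f j)) ∧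
          (∀ i j, i ≠ j → ∃ u ∈ f i, ∃ v ∈ f j, G.Adj u v)) →
      ∃ n : ℕ, ∃ T : SimpleGraph (Fin n), T.IsTree ∧
        ∃ β : Fin n → Set V,
          (∀ u v, G.Adj u v → ∃ w, u ∈ β w ∧ v ∈ β w) ∧
          (∀ v, (T.induce {w | v ∈ β w}).Connected) ∧
          (∀ w, ∃ Z ⊆ β w, Z.ncard ≤ t * (t - 3) ∧ (G.induce (β w \ Z)).Colorable (2 * t)) :=
  HDR57.structure_thm

end Pool.Agent.Results.MP_a56eaa_co.BagStructure
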