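import Pool.Agent.LibHJ.M
import Pool.Agent.LibHJ57.Final
import Pool.Agent.LibHL.Final

set_option autoImplicit false

namespace Pool.Agent.Results.MP_a56eaa_co.Linear

/-- For every `t ≥ 1` every finite graph `G` with no `K_{t+1}` minor is `(10 ^ 16 * t)`-colourable; in particular
`G` has a tree decomposition all of whose bags are `(10 ^ 16 * t)`-colourable (the one with one bag), so that its
tree-chromatic number is at most `10 ^ 16 * t`. -/
theorem result :
    ∀ (V : Type) [Fintype V] (G : SimpleGraph V) (t : ℕ), 1 ≤ t →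
      (¬ ∃ f : Fin (t + 1) → Set V,
          (∀ i, (G.induce (f i)).Connected) ∧
          (∀ i j, i ≠ j → Disjoint (f i) (f j)) ∧
          (∀ i j, i ≠ j → ∃ u ∈ f i, ∃ v ∈ f j, G.Adj u v)) →
      G.Colorable (10 ^ 16 * t) ∧
        ∃ n : ℕ, ∃ T : SimpleGraph (Fin n), T.IsTree ∧
          ∃ β : Fin n → Set V,
            (∀ u v, G.Adj u v → ∃ w, u ∈ β w ∧ v ∈ β w) ∧
            (∀ v, (T.induce {w | v ∈ β w}).Connected) ∧
            (∀ w, (G.induce (β w)).Colorable (10 ^ 16 * t)) := by
  intro V _ G t ht hno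
  have hcol : G.Colorable (10 ^ 16 * t) :=
    HD.linear_sets (fun V _ _ G U t h1 h2 h3 => HD.small_linear h1 h2 h3) V G t ht hno
  exact ⟨hcol, HD.one_bag G hcol⟩

end Pool.Agent.Results.MP_a56eaa_co.Linear
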